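import Pool.Agent.R612.HG.Graph

/-!
The curves `{(x + a_0, ..., x + a_n)}` over a model of ACFO.
-/

set_option autoImplicit false

universe u

namespace Pool.Agent.R507.ACFO

open MvPolynomial Pool.Agent.R612.HG

variable {F : Type u} [Field F] {n : ℕ}

/-- the curve `{(x + a_0, ..., x + a_n)}` -/
def VC (a : Fin (n + 1) → F) : Set (Fin (n + 1) → F) := {v | ∃ x, ∀ i, v i = x + a i}

/-- the parametrization, on polynomials -/
noncomputable def par (a : Fin (n + 1) → F) : MvPolynomial (Fin (n + 1)) F →ₐ[F] Polynomial F :=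
  aeval fun i => Polynomial.X + Polynomial.C (a i)

theorem eval_par (a : Fin (n + 1) → F) (x : F) (f : MvPolynomial (Fin (n + 1)) F) :
    Polynomial.eval x (par a f) = eval (fun i => x + a i) f := by
  have h : (Polynomial.evalRingHom x).comp (par a : MvPolynomial (Fin (n + 1)) F →+* Polynomial F)
      = eval fun i => x + a i := by
    apply ringHom_ext
    · intro r
      simp [par]
    · intro i
      simp [par]
  exact congrArg (fun g : MvPolynomial (Fin (n + 1)) F →+* F => g f) h

theorem VC_quasiAffine (a : Fin (n + 1) → F) : QuasiAffine (VC a) := by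
  refine ⟨⟨a, 0, fun i => (zero_add _).symm⟩,
    RingHom.ker (par a : MvPolynomial (Fin (n + 1)) F →+* Polynomial F), ⊤,
    RingHom.ker_isPrime _, ?_⟩
  ext v
  constructor
  · rintro ⟨x, hx⟩
    have hv : v = fun i => x + a i := funext hx
    refine ⟨fun f hf => ?_, fun h => ?_⟩
    · rw [hv, ← eval_par, show par a f = 0 from hf, Polynomial.eval_zero]
    · have := h 1 Submodule.mem_top
      rw [map_one] at this
      exact one_ne_zero this
  · rintro ⟨h, -⟩
    refine ⟨v 0 - a 0, fun i => ?_⟩
    have h1 := h (X i - X 0 - C (a i - a 0)) (by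
      show par a _ = 0
      simp only [par, map_sub, aeval_X, aeval_C, Polynomial.algebraMap_eq]
      ring)
    simp only [map_sub, eval_X, eval_C] at h1
    linear_combination h1

theorem VC_multLarge [Infinite F] {a : Fin (n + 1) → F} (ha : Function.Injective a) :
    MultLarge (VC a) := by
  intro k hk c hsub
  obtain ⟨i₀, hi₀⟩ : ∃ i, k i ≠ 0 := by
    by_contra hcon
    push Not at hcon
    exact hk (funext hcon)
  set A : Polynomial F := ∏ i, (Polynomial.X + Polynomial.C (a i)) ^ (k i).toNat with hA
  set B : Polynomial F := Polynomial.C (c : F) *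
    ∏ i, (Polynomial.X + Polynomial.C (a i)) ^ (-k i).toNat with hB
  have hAe : ∀ x, A.eval x = ∏ i, (x + a i) ^ (k i).toNat := by
    intro x
    rw [hA, Polynomial.eval_prod]
    simp
  have hBe : ∀ x, B.eval x = c * ∏ i, (x + a i) ^ (-k i).toNat := by
    intro x
    rw [hB, Polynomial.eval_mul, Polynomial.eval_prod]
    simp
  have hAB : A = B := by
    apply Polynomial.eq_of_infinite_eval_eq
    have hfin : (Set.range fun i => -a i).Finite := Set.finite_range _
    refine (hfin.infinite_compl).mono ?_
    intro x hx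
    have hne : ∀ i, x + a i ≠ 0 := by
      intro i hi
      apply hx
      exact ⟨i, by
        show -a i = x
        linear_combination -hi⟩
    set w : Fin (n + 1) → Fˣ := fun i => Units.mk0 (x + a i) (hne i) with hw
    have h1 : w ∈ unitPts (VC a) := ⟨x, fun i => rfl⟩
    have h2 : ∏ i, w i ^ k i = c := hsub h1
    show A.eval x = B.eval x
    rw [hAe, hBe]
    have h3 : (∏ i, w i ^ (k i).toNat : Fˣ) = c * ∏ i, w i ^ (-k i).toNat := by
      rw [← h2, ← Finset.prod_mul_distrib]
      refine Finset.prod_congr rfl fun i _ => ?_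
      have h4 : w i ^ k i = w i ^ (k i).toNat * (w i ^ (-k i).toNat)⁻¹ := by
        rw [← zpow_natCast, ← zpow_natCast, ← zpow_neg, ← zpow_add]
        congr 1
        omega
      rw [h4, inv_mul_cancel_right]
    have h5 := congrArg (fun u : Fˣ => (u : F)) h3
    simpa [hw] using h5
  have h0 : A.eval (-a i₀) = B.eval (-a i₀) := by rw [hAB]
  rw [hAe, hBe] at h0
  have hne : ∀ i, i ≠ i₀ → -a i₀ + a i ≠ 0 := by
    intro i hi h
    apply hi
    apply ha
    linear_combination h
  rcases lt_or_gt_of_ne hi₀ with h | h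
  · -- negative exponent: the right side vanishes
    have h1 : ∏ i, (-a i₀ + a i) ^ (-k i).toNat = 0 := by
      refine Finset.prod_eq_zero (Finset.mem_univ i₀) ?_
      rw [neg_add_cancel]
      exact zero_pow (by omega)
    rw [h1, mul_zero] at h0
    obtain ⟨i, -, hi⟩ := Finset.prod_eq_zero_iff.1 h0
    by_cases hii : i = i₀
    · subst hii
      have : (k i).toNat = 0 := by omega
      rw [this, pow_zero] at hi
      exact one_ne_zero hi
    · exact pow_ne_zero _ (hne i hii) hi
  · have h1 : ∏ i, (-a i₀ + a i) ^ (k i).toNat = 0 := by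
      refine Finset.prod_eq_zero (Finset.mem_univ i₀) ?_
      rw [neg_add_cancel]
      exact zero_pow (by omega)
    rw [h1] at h0
    have h2 := (mul_eq_zero.1 h0.symm).resolve_left c.ne_zero
    obtain ⟨i, -, hi⟩ := Finset.prod_eq_zero_iff.1 h2
    by_cases hii : i = i₀
    · subst hii
      have : (-k i).toNat = 0 := by omega
      rw [this, pow_zero] at hi
      exact one_ne_zero hi
    · exact pow_ne_zero _ (hne i hii) hi

/-- translates of an element in prescribed open sets -/
theorem exists_translate {lt : Fˣ → Fˣ → Prop} {P : (n : ℕ) → Fin n → Fˣ → Prop}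
    (h : IsACFO F lt P) {a : Fin (n + 1) → F} (ha : Function.Injective a)
    (U : Fin (n + 1) → Set Fˣ) (hU : ∀ i, @IsOpen Fˣ (ordTop lt) (U i))
    (hne : ∀ i, (U i).Nonempty) : ∃ x : F, ∀ i, ∃ b ∈ U i, (b : F) = x + a i := by
  have := h.algClosed
  have : Infinite F := IsAlgClosed.instInfinite
  have hd := h.generic (n + 1) (VC a) (VC_quasiAffine a) (VC_multLarge ha)
  let _ : TopologicalSpace Fˣ := ordTop lt
  have hd' : Dense (unitPts (VC a)) := hd
  obtain ⟨w, hwU, x, hx⟩ := hd'.inter_open_nonempty (Set.pi Set.univ U)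
    (isOpen_set_pi Set.finite_univ fun i _ => hU i) (Set.univ_pi_nonempty_iff.2 hne)
  exact ⟨x, fun i => ⟨w i, hwU i (Set.mem_univ _), hx i⟩⟩

end Pool.Agent.R507.ACFO
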